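import Mathlib
import Pool.Agent.R692.SG.Ex

set_option autoImplicit false

namespace Pool.Agent.Results.MP_eab7e5_al.NotSimple

/-- `𝒜` is a strong grading of the ring `R` by the group `G`: as an additive group `R` is the internal
direct sum of the `𝒜 g`, and for all `g, h` the additive subgroup generated by the products `x * y`
with `x ∈ 𝒜 g` and `y ∈ 𝒜 h` is `𝒜 (g * h)`. -/
def StronglyGraded {G R : Type} [Group G] [Ring R] (𝒜 : G → AddSubgroup R) : Prop :=
  (∀ [DecidableEq G], DirectSum.IsInternal 𝒜) ∧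
    ∀ g h : G, AddSubgroup.closure {z : R | ∃ x ∈ 𝒜 g, ∃ y ∈ 𝒜 h, z = x * y} = 𝒜 (g * h)

/-- a two-sided ideal is graded if it is generated, as an additive group, by its homogeneous elements -/
def GradedIdeal {G R : Type} [Ring R] (𝒜 : G → AddSubgroup R) (I : TwoSidedIdeal R) : Prop :=
  ∀ x ∈ I, x ∈ AddSubgroup.closure {y : R | y ∈ I ∧ ∃ g, y ∈ 𝒜 g}

/-- the only graded two-sided ideals are `0` and `R` -/
def GradedSimple {G R : Type} [Ring R] (𝒜 : G → AddSubgroup R) : Prop :=
  ∀ I : TwoSidedIdeal R, GradedIdeal 𝒜 I → I = ⊥ ∨ I = ⊤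

/-- There are a group `G` and a nonzero strongly `G`-graded ring `R` which is graded simple, in which the
centralizer of the component of degree `1` is the center of that component, and which has a two-sided
ideal other than `0` and `R`. -/
theorem result : ∃ (G : Type) (_ : Group G) (R : Type) (_ : Ring R) (_ : Nontrivial R)
    (𝒜 : G → AddSubgroup R), StronglyGraded 𝒜 ∧ GradedSimple 𝒜 ∧
      {r : R | ∀ a ∈ 𝒜 1, r * a = a * r} = {r : R | r ∈ 𝒜 1 ∧ ∀ a ∈ 𝒜 1, r * a = a * r} ∧
      ∃ I : TwoSidedIdeal R, I ≠ ⊥ ∧ I ≠ ⊤ := by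
  have hE : Nontrivial R692.SG.En := ⟨1, 0, fun h => by
    have h1 := DFunLike.congr_fun h (1 : R692.SG.K)
    exact one_ne_zero h1⟩
  have hR : Nontrivial (R692.SG.R R692.SG.A R692.SG.G R692.SG.hN) := ⟨1, 0, fun h => by
    have h1 := congrArg (fun r => (Subtype.val r : MonoidAlgebra R692.SG.En R692.SG.G)) h
    exact one_ne_zero h1⟩
  refine ⟨R692.SG.G, inferInstance, R692.SG.R R692.SG.A R692.SG.G R692.SG.hN, inferInstance, hR,
    R692.SG.gr R692.SG.hN, ⟨?_, ?_⟩, ?_, ?_, ?_⟩
  · intro _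
    exact R692.SG.internal R692.SG.hN
  · intro g h
    apply le_antisymm
    · rw [AddSubgroup.closure_le]
      rintro z ⟨x, hx, y, hy, rfl⟩
      exact R692.SG.gr_mul R692.SG.hN hx hy
    · intro z hz
      exact AddSubgroup.subset_closure (R692.SG.strong R692.SG.hN g h hz)
  · exact R692.SG.gsimple R692.SG.hN R692.SG.hS
  · ext r
    constructor
    · exact fun h => ⟨R692.SG.centr R692.SG.hN R692.SG.hC r h, h⟩
    · exact fun h => h.2
  · exact R692.SG.notsimple R692.SG.hN R692.SG.hK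

end Pool.Agent.Results.MP_eab7e5_al.NotSimple
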